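import Pool.Agent.N204.TB.GStm

/-!
# TB/GEO1: the matrices of a Galois action on the cohomology of the powers
-/

set_option autoImplicit false
set_option linter.unusedSectionVars false

open CategoryTheory AlgebraicGeometry TensorProduct

universe u

namespace Pool.Agent.N415.TB

open Module Matrix
open Pool.Agent.H914 Pool.Agent.H914.VarClass Pool.Agent.H914.VarClass.Obj
  Pool.Agent.H914.WeilCohomology
open Pool.Agent.Y133.Half Pool.Agent.Y121.AH
open Pool.Agent.Y132.AH (GaloisData)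
open Pool.Agent.N996.BP (kp UCol kp_apply)
open Pool.Agent.N996.BP.Geo
open Pool.Agent.N204.TB

variable {k : Type u} [Field k] {𝒱 : VarClass k} {ops : CycleOps 𝒱} {T : HodgeTheory ops}
  {X Z : 𝒱.Obj}

/-- The combination of rational classes with complex coefficients. -/
noncomputable def cmb {κ : Type} [Fintype κ] (b : κ → T.W.H Z) (z : κ → ℂ) : (CW T).H Z :=
  ∑ v, cc T (z v) • em T.W ℂ (b v)

lemma cmb_eq {κ : Type} [Fintype κ] (b : Basis κ T.W.K (T.W.H Z)) (z : κ → ℂ) :
    ((b.baseChange ℂ).equivFun.symm z : ℂ ⊗[T.W.K] T.W.H Z) = cmb (T := T) b z := by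
  rw [Basis.equivFun_symm_apply]
  refine Finset.sum_congr rfl fun w _ => ?_
  rw [Basis.baseChange_apply]
  rfl

lemma cmb_inj {κ : Type} [Fintype κ] (b : Basis κ T.W.K (T.W.H Z)) {z z' : κ → ℂ}
    (h : cmb (T := T) b z = cmb (T := T) b z') : z = z' := by
  have h2 := (cmb_eq b z).trans (h.trans (cmb_eq b z').symm)
  exact (b.baseChange ℂ).equivFun.symm.injective h2

/-- Homogeneous elements in coordinates. -/
lemma cmb_gr {κ : Type} [Fintype κ] (b : Basis κ T.W.K (T.W.H Z)) (d : κ → ℕ)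
    (hb : ∀ v, b v ∈ T.W.gr Z (d v)) (m : ℕ) (z : κ → ℂ) :
    cmb (T := T) b z ∈ (CW T).gr Z m ↔ ∀ v, z v ≠ 0 → d v = m := by
  constructor
  · intro h
    have h1 : H914.proj ((CW T).isInternal Z) m (cmb (T := T) b z) =
        cmb (T := T) b (fun v => if d v = m then z v else 0) := by
      rw [cmb, cmb, map_sum]
      refine Finset.sum_congr rfl fun v _ => ?_
      rw [map_smul]
      by_cases hv : d v = m
      · have h2 : em T.W ℂ (b v) ∈ (CW T).gr Z m := hv ▸ em_gr (hb v)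
        rw [proj_same _ h2, if_pos hv]
      · have h4 : cc T 0 = 0 := rfl
        rw [proj_ne _ (em_gr (hb v)) hv, if_neg hv, smul_zero, h4, zero_smul]
    rw [proj_same _ h] at h1
    have h3 := cmb_inj b h1
    intro v hv
    by_contra hne
    apply hv
    rw [h3]
    exact if_neg hne
  · intro h
    refine Submodule.sum_mem _ fun v _ => ?_
    by_cases hv : z v = 0
    · have h2 : cc T (z v) = 0 := hv
      rw [h2, zero_smul]
      exact Submodule.zero_mem _
    · exact Submodule.smul_mem _ _ ((h v hv) ▸ em_gr (hb v))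

variable {ι : Type} [Fintype ι] [DecidableEq ι] (e : Basis ι T.W.K (T.W.H X))

lemma emb_eq_cmb (n : ℕ) (z : (Fin (n + 1) → ι) → ℂ) : emb e n z = cmb (T := T) (wb e n) z := rfl

lemma wb_gr {deg : ι → ℕ} (he : ∀ j, e j ∈ T.W.gr X (deg j)) (n : ℕ) (w : Fin (n + 1) → ι) :
    wb e n w ∈ T.W.gr (pw X n) (∑ k, deg (w k)) := by
  induction n with
  | zero =>
    rw [wb_zero, Fin.sum_univ_succ, Fin.sum_univ_zero, add_zero]
    exact he (w 0)
  | succ n ih =>
    rw [wb_succ, Fin.sum_univ_castSucc]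
    exact T.W.mul_mem (T.W.map_mem _ (ih fun i => w i.castSucc)) (T.W.map_mem _ (he _))

variable {Γ : Type} [Group Γ] (G : GaloisData (CW T) Γ)

/-- The matrix of a Galois automorphism with respect to a family of rational classes. -/
def IsM (g : Γ) (Z : 𝒱.Obj) {κ : Type} [Fintype κ] (b : κ → T.W.H Z) (M : Matrix κ κ ℂ) : Prop :=
  ∀ w, G.act Z g (em T.W ℂ (b w)) = ∑ v, cc T (M v w) • em T.W ℂ (b v)

variable {G}

lemma isM_zero {g : Γ} {M : Matrix ι ι ℂ} (h0 : IsM G g X e M) :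
    IsM G g X (fun w : Fin 1 → ι => e (w 0)) (kp (Fin 1) M) := by
  intro w
  rw [← Equiv.sum_comp (Equiv.funUnique (Fin 1) ι).symm]
  refine (h0 (w 0)).trans (Finset.sum_congr rfl fun i _ => ?_)
  rw [kp_apply, Fintype.prod_unique]
  rfl

lemma isM_zero' {g : Γ} {M : Matrix ι ι ℂ} (h0 : IsM G g X e M) :
    IsM G g (pw X 0) (wb e 0) (kp (Fin (0 + 1)) M) := by
  have h1 : (wb e 0 : (Fin 1 → ι) → T.W.H X) = fun w => e (w 0) := funext fun w => wb_zero e w
  have h2 := isM_zero e h0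
  rw [← h1] at h2
  exact h2

lemma act_map {Y : 𝒱.Obj} (g : Γ) (f : Z ⟶ Y) (y : (CW T).H Y) :
    G.act Z g ((CW T).map f y) = (CW T).map f (G.act Y g y) := G.map f g y

lemma isM_succ {g : Γ} {M : Matrix ι ι ℂ} (h0 : IsM G g X e M) (n : ℕ)
    (ih : IsM G g (pw X n) (wb e n) (kp (Fin (n + 1)) M)) :
    IsM G g (pw X (n + 1)) (wb e (n + 1)) (kp (Fin (n + 1 + 1)) M) := by
  intro w
  rw [wb_succ, em_mul, ← em_map, ← em_map]
  refine (map_mul _ _ _).trans ?_
  rw [act_map, act_map, ih, h0, map_sum, map_sum, Finset.sum_mul_sum, sum_snoc]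
  refine Finset.sum_congr rfl fun v _ => Finset.sum_congr rfl fun x _ => ?_
  rw [map_smul, map_smul, smul_mul_smul_comm, em_map, em_map, ← em_mul, ← wb_snoc, kp_snoc]
  rfl

lemma isM_wb {g : Γ} {M : Matrix ι ι ℂ} (h0 : IsM G g X e M) (n : ℕ) :
    IsM G g (pw X n) (wb e n) (kp (Fin (n + 1)) M) := by
  induction n with
  | zero => exact isM_zero' e h0
  | succ n ih => exact isM_succ e h0 n ih

lemma act_emb {g : Γ} {M : Matrix ι ι ℂ} (h0 : IsM G g X e M) (n : ℕ)
    (z : (Fin (n + 1) → ι) → ℂ) :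
    G.act (pw X n) g (emb e n z) = emb e n (kp (Fin (n + 1)) M *ᵥ z) := by
  rw [emb, map_sum, emb]
  have h1 : ∀ w, G.act (pw X n) g (cc T (z w) • em T.W ℂ (wb e n w)) =
      ∑ v, cc T (kp (Fin (n + 1)) M v w * z w) • em T.W ℂ (wb e n v) := by
    intro w
    rw [map_smul, isM_wb e h0 n w, Finset.smul_sum]
    refine Finset.sum_congr rfl fun v _ => ?_
    rw [smul_smul, mul_comm]
    rfl
  rw [Finset.sum_congr rfl fun w _ => h1 w, Finset.sum_comm]
  refine Finset.sum_congr rfl fun v _ => ?_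
  rw [← Finset.sum_smul]
  rfl

variable (G)

/-- The operator of a Galois automorphism. -/
noncomputable def Lg (X : 𝒱.Obj) (g : Γ) :
    (ℂ ⊗[T.W.K] T.W.H X) →ₗ[ℂ] (ℂ ⊗[T.W.K] T.W.H X) :=
  (G.act X g).toAlgHom.toLinearMap

lemma Lg_apply (X : 𝒱.Obj) (g : Γ) (x : ℂ ⊗[T.W.K] T.W.H X) :
    Lg G X g x = (G.act X g (x : (CW T).H X) : (CW T).H X) := rfl

/-- The matrices of the Galois action. -/
noncomputable def rhoM : Γ →* Matrix ι ι ℂ where
  toFun g := LinearMap.toMatrix (e.baseChange ℂ) (e.baseChange ℂ) (Lg G X g)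
  map_one' := by
    have h : Lg G X 1 = LinearMap.id := by
      refine LinearMap.ext fun x => ?_
      rw [Lg_apply, map_one]
      rfl
    rw [h, LinearMap.toMatrix_id]
  map_mul' g g' := by
    have h : Lg G X (g * g') = (Lg G X g).comp (Lg G X g') := by
      refine LinearMap.ext fun x => ?_
      rw [LinearMap.comp_apply, Lg_apply, Lg_apply, Lg_apply, map_mul]
      rfl
    rw [h, LinearMap.toMatrix_comp _ (e.baseChange ℂ)]

lemma rhoM_isM (g : Γ) : IsM G g X e (rhoM e G g) := by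
  intro j
  have h1 := (e.baseChange ℂ).sum_repr (Lg G X g ((e.baseChange ℂ) j))
  have h2 : Lg G X g ((e.baseChange ℂ) j) = (G.act X g (em T.W ℂ (e j)) : (CW T).H X) := by
    rw [Basis.baseChange_apply]
    rfl
  refine h2.symm.trans (h1.symm.trans ?_)
  refine Finset.sum_congr rfl fun i _ => ?_
  have h3 : rhoM e G g i j = (e.baseChange ℂ).repr (Lg G X g ((e.baseChange ℂ) j)) i :=
    LinearMap.toMatrix_apply _ _ _ _ _
  have h4 : ((e.baseChange ℂ) i : ℂ ⊗[T.W.K] T.W.H X) = em T.W ℂ (e i) := by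
    rw [Basis.baseChange_apply]
    rfl
  rw [h3, ← h4]
  rfl

/-- **GEO1** -/
theorem geo1 : S_GEO1.{u} := by
  intro k _ 𝒱 ops T Γ _ G X ι _ _ e deg he
  refine ⟨fun n m z => ?_, rhoM e G, ?_, ?_, ?_⟩
  · rw [emb_eq_cmb]
    exact cmb_gr (wb e n) _ (fun w => wb_gr e he n w) m z
  · intro g n z
    exact act_emb e (rhoM_isM e G g) n z
  · intro g i j hij
    have h1 : G.act X g (em T.W ℂ (e j)) ∈ (CW T).gr X (deg j) :=
      (G.galois X).gr_mem g (deg j) _ (em_gr (he j))
    rw [rhoM_isM e G g j] at h1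
    exact (cmb_gr e deg he (deg j) (fun i => rhoM e G g i j)).1 h1 i hij
  · intro o ho g i
    have h1 := rhoM_isM e G g o
    rw [ho, em_one, map_one] at h1
    have h2 : cmb (T := T) e (fun i => if i = o then (1:ℂ) else 0) = em T.W ℂ (e o) := by
      rw [cmb, Finset.sum_eq_single o]
      · have h4 : cc T 1 = 1 := rfl
        rw [if_pos rfl, h4, one_smul]
      · intro i _ hi
        have h4 : cc T 0 = 0 := rfl
        rw [if_neg hi, h4, zero_smul]
      · intro h; exact absurd (Finset.mem_univ o) h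
    rw [ho, em_one] at h2
    have h3 := cmb_inj e ((h2.trans h1).symm : cmb (T := T) e (fun i => rhoM e G g i o) = _)
    exact congrFun h3 i

end Pool.Agent.N415.TB
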